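import Pool.Agent.H86.OL.Md

/-! # MP_63a02b_gt: the singular points of the orbifold part of a noncollapsed limit of Einstein 5-manifolds

The definitions (tangent cones, symmetry, the strata `S^k`, the singular set `S`, orbifold charts, the local model
`ℝ × ℝ⁴ / Γ`) are in `Pool/Agent/H86/OL/Defs.lean` and `Pool/Agent/H86/OL/Defs2.lean`.
-/

set_option autoImplicit false

namespace Pool.Agent.Results.MP_63a02b_gt.OrbifoldPart

open Set Filter Topology OL86

variable {X : Type} [MetricSpace X] {U : Set X}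

/-- the line at a 1-symmetric singular orbifold point -/
theorem line_of (O : OrbifoldOn X U) {x : X} (hx : x ∈ (U ∩ singularSet X) \ stratum X 0) :
    O.G x ≠ ⊥ ∧ ∃ u : E5, ‖u‖ = 1 ∧ (∀ g ∈ O.G x, g u = u) ∧ ∀ g ∈ O.G x, g ≠ 1 → ∀ w, g w = w → ∃ c : ℝ, w = c • u := by
  obtain ⟨⟨hU, hS⟩, h0⟩ := hx
  have hG := ne_bot_of_singular O hU hS
  obtain ⟨u, hu, hline⟩ := line_at O (singular_stratum O) hU
  refine ⟨hG, u, hu, ?_, fun g hg => (hline g hg).2⟩
  obtain ⟨v, hv0, hv⟩ := (notMem_zero O hU).1 h0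
  obtain ⟨⟨g1, hg1⟩, hg1'⟩ := (Subgroup.ne_bot_iff_exists_ne_one).1 hG
  obtain ⟨c, hc⟩ := (hline g1 hg1).2 (fun e => hg1' (Subtype.ext e)) v (hv g1 hg1)
  have hc0 : c ≠ 0 := fun e => hv0 (by rw [hc, e, zero_smul])
  intro g hg
  have h1 := hv g hg
  rw [hc, map_smul] at h1
  exact smul_right_injective _ hc0 h1

/-- the geodesic at a 1-symmetric singular orbifold point -/
theorem geodesic_at (O : OrbifoldOn X U) (hO : IsNormal O) {x : X} (hx : x ∈ (U ∩ singularSet X) \ stratum X 0) :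
    ∃ c : ℝ → X, IsGeodesic c ∧ (∀ t ∈ Icc (-1 : ℝ) 1, c t ∈ (U ∩ singularSet X) \ stratum X 0) ∧
      ∀ᶠ y in 𝓝 x, y ∈ (U ∩ singularSet X) \ stratum X 0 → y ∈ c '' Icc (-1) 1 := by
  obtain ⟨hG, u, hu, hA, hline⟩ := line_of O hx
  have hU := hx.1.1
  have hu0 : u ≠ 0 := fun h => by rw [h, norm_zero] at hu; exact zero_ne_one hu
  have hr := O.rad_pos x hU
  have hr2 : 0 < O.rad x / 2 := by linarith
  have hb : ∀ t ∈ Icc (-1 : ℝ) 1, |O.rad x / 2 * t| < O.rad x := by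
    intro t ht
    rw [abs_mul, abs_of_pos hr2]
    have h2 : |t| ≤ 1 := abs_le.2 ht
    nlinarith [abs_nonneg t]
  obtain ⟨⟨g1, hg1⟩, hg1'⟩ := (Subgroup.ne_bot_iff_exists_ne_one).1 hG
  have hg1'' : g1 ≠ 1 := fun e => hg1' (Subtype.ext e)
  refine ⟨fun t => O.chart x ((O.rad x / 2 * t) • u), ⟨O.rad x / 2, hr2, ?_⟩, ?_, ?_⟩
  · intro s hs t ht
    show dist (O.chart x ((O.rad x / 2 * s) • u)) (O.chart x ((O.rad x / 2 * t) • u)) = _
    rw [hO x hU u hA _ _ (mem_ball_smul hu (hb s hs)) (mem_ball_smul hu (hb t ht)), hu, mul_one, ← mul_sub, abs_mul,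
      abs_of_pos hr2]
  · intro t ht
    have hm := mem_ball_smul hu (hb t ht)
    have hyU := O.chart_mem x hU _ hm
    refine ⟨⟨hyU, mem_singular O hyU ((ne_bot_chart O hU hm).2 ⟨g1, hg1, hg1'', by rw [map_smul, hA g1 hg1]⟩)⟩, ?_⟩
    obtain ⟨k, hk⟩ := O.chart_group x hU _ hm
    refine (notMem_zero O hyU).2 ⟨k u, fun e => ?_, fun g hg => conj_fix (hA _ ((hk g).1 hg).1)⟩
    have h1 := k.norm_map u
    rw [e, norm_zero, hu] at h1
    exact zero_ne_one h1
  · filter_upwards [nhd O hU hr2 (by linarith)] with y hy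
    obtain ⟨v, hv, rfl⟩ := hy
    intro hyA
    have hvr : v ∈ B5 (O.rad x) := Metric.ball_subset_ball (by linarith) hv
    obtain ⟨g, hg, hg1, hgv⟩ := (ne_bot_chart O hU hvr).1 (ne_bot_of_singular O hyA.1.1 hyA.1.2)
    obtain ⟨t, rfl⟩ := hline g hg hg1 v hgv
    rw [mem_ball_zero_iff, norm_smul, hu, mul_one, Real.norm_eq_abs] at hv
    refine ⟨t / (O.rad x / 2), ?_, ?_⟩
    · rw [mem_Icc, ← abs_le, abs_div, abs_of_pos hr2, div_le_one hr2]
      exact hv.le
    · show O.chart x ((O.rad x / 2 * (t / (O.rad x / 2))) • u) = O.chart x (t • u)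
      rw [mul_div_cancel₀ t hr2.ne']

/-- **Theorem.** -/
theorem result (X : Type) [MetricSpace X] [TopologicalSpace.SeparableSpace X] (U : Set X) (O : OrbifoldOn X U)
    (hO : IsNormal O) :
    (U ∩ stratum X 0).Countable ∧ (U ∩ singularSet X) \ stratum X 0 ⊆ modelSet X ∧
      ∃ F : Set (ℝ → X), F.Countable ∧ (∀ c ∈ F, IsGeodesic c) ∧
        (U ∩ singularSet X) \ stratum X 0 = ⋃ c ∈ F, c '' Icc (-1) 1 := by
  haveI : SecondCountableTopology X := UniformSpace.secondCountable_of_separable X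
  refine ⟨?_, ?_, ?_⟩
  · obtain ⟨T, hTU, hT, hcov⟩ := TopologicalSpace.countable_cover_nhdsWithin (s := U)
      (f := fun x => O.chart x '' Metric.ball (0 : E5) (O.rad x))
      (fun x hx => mem_nhdsWithin_of_mem_nhds (nhd O hx (O.rad_pos x hx) le_rfl))
    refine hT.mono ?_
    rintro x ⟨hU, h0⟩
    obtain ⟨z, hz, v, hv, hvx⟩ := Set.mem_iUnion₂.1 (hcov hU)
    by_cases hv0 : v = 0
    · rw [hv0, O.chart_zero z (hTU hz)] at hvx
      rw [← hvx]
      exact hz
    · exfalso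
      have h1 := (notMem_zero O (O.chart_mem z (hTU hz) v hv)).2 (fixed_chart O (hTU hz) hv hv0)
      rw [hvx] at h1
      exact h1 h0
  · intro x hx
    obtain ⟨hG, u, hu, hA, hline⟩ := line_of O hx
    exact mem_model O hx.1.1 hG hu hA hline
  · have key : ∀ x, x ∈ (U ∩ singularSet X) \ stratum X 0 → ∃ c : ℝ → X, IsGeodesic c ∧
        (∀ t ∈ Icc (-1 : ℝ) 1, c t ∈ (U ∩ singularSet X) \ stratum X 0) ∧
        ∀ᶠ y in 𝓝 x, y ∈ (U ∩ singularSet X) \ stratum X 0 → y ∈ c '' Icc (-1) 1 := fun x hx => geodesic_at O hO hx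
    by_cases hne : Nonempty (ℝ → X)
    · choose! c hc using key
      obtain ⟨T, hTA, hT, hcov⟩ := TopologicalSpace.countable_cover_nhdsWithin
        (s := (U ∩ singularSet X) \ stratum X 0)
        (f := fun x => {y | y ∈ (U ∩ singularSet X) \ stratum X 0 → y ∈ c x '' Icc (-1) 1})
        (fun x hx => mem_nhdsWithin_of_mem_nhds (hc x hx).2.2)
      refine ⟨c '' T, hT.image c, ?_, ?_⟩
      · rintro _ ⟨x, hx, rfl⟩
        exact (hc x (hTA hx)).1
      · apply Subset.antisymm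
        · intro x hx
          obtain ⟨z, hz, h⟩ := Set.mem_iUnion₂.1 (hcov hx)
          exact Set.mem_iUnion₂.2 ⟨c z, ⟨z, hz, rfl⟩, h hx⟩
        · intro y hy
          obtain ⟨_, ⟨x, hx, rfl⟩, t, ht, rfl⟩ := Set.mem_iUnion₂.1 hy
          exact (hc x (hTA hx)).2.1 t ht
    · refine ⟨∅, Set.countable_empty, fun c hc => hc.elim, ?_⟩
      have hX : IsEmpty X := by
        rw [← not_nonempty_iff]
        rintro ⟨a⟩
        exact hne ⟨fun _ => a⟩
      ext y
      exact (hX.false y).elim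

end Pool.Agent.Results.MP_63a02b_gt.OrbifoldPart
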